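import Pool.Agent.PCL.Stmts

/-!
# Squad PCL, row EXT: extension by zero
-/

set_option autoImplicit false

namespace Pool.Agent.PCL.H21

/-- extension by zero -/
def ext0 {ι : Type} (p : ι → Prop) [DecidablePred p] (x : {i // p i} → ℤ) : ι → ℤ :=
  fun i => if h : p i then x ⟨i, h⟩ else 0

theorem ext0_pos {ι : Type} (p : ι → Prop) [DecidablePred p] (x : {i // p i} → ℤ)
    (i : {i // p i}) : ext0 p x i = x i := by
  unfold ext0
  rw [dif_pos i.2]

theorem ext0_neg {ι : Type} (p : ι → Prop) [DecidablePred p] (x : {i // p i} → ℤ)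
    {i : ι} (h : ¬ p i) : ext0 p x i = 0 := by
  unfold ext0
  rw [dif_neg h]

theorem ext0_inj {ι : Type} (p : ι → Prop) [DecidablePred p] :
    Function.Injective (ext0 p) := by
  intro x y hxy
  funext i
  rw [← ext0_pos p x i, ← ext0_pos p y i, hxy]

theorem pt_ext0 {ι : Type} [Fintype ι] (g : ι → ℂ) (p : ι → Prop) [DecidablePred p]
    (x : {i // p i} → ℤ) : pt g (ext0 p x) = pt (fun i : {i // p i} => g i) x := by
  unfold pt
  rw [← Fintype.sum_subtype_add_sum_subtype p]
  have h1 : ∑ i : {i // ¬ p i}, ((ext0 p x (i : ι) : ℤ) : ℂ) * g i = 0 := by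
    refine Finset.sum_eq_zero fun i _ => ?_
    rw [ext0_neg p x i.2]
    simp
  rw [h1, add_zero]
  refine Finset.sum_congr rfl fun i _ => ?_
  rw [ext0_pos]

theorem ext : ExtStmt := by
  intro ι _ _ g N p _ e r hr
  classical
  unfold cnt
  refine Finset.card_le_card_of_injOn (ext0 p) ?_ (fun x _ y _ h => ext0_inj p h)
  intro x hx
  have hx' := Finset.mem_coe.1 hx
  rw [Finset.mem_filter, mem_bx] at hx'
  obtain ⟨h1, t, ht⟩ := hx'
  refine Finset.mem_coe.2 (Finset.mem_filter.2 ⟨mem_bx.2 ?_, t, ?_⟩)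
  · intro i
    by_cases h : p i
    · have := h1 ⟨i, h⟩
      have h2 := ext0_pos p x ⟨i, h⟩
      rw [show ext0 p x i = x ⟨i, h⟩ from h2]
      exact this
    · rw [ext0_neg p x h]
      simp only [Int.cast_zero, abs_zero]
      positivity
  · rw [pt_ext0]
    exact ht

end Pool.Agent.PCL.H21
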